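import Pool.Agent.H220.IC.G
import Pool.Agent.H903.IC.Row
import Pool.Agent.H363.IC.Lip
import Pool.Agent.H296.IC.Cert
import Pool.Agent.H787.IC.Conc

/-!
# Interlaced concentration fails also for a smoother bidual quotient (MP_a21e0e_an, Q2)

There is a real Banach space `X` which is `4/3`-AUS, is complemented in its bidual, and whose bidual
quotient `X** / X` is isomorphic to a Hilbert space, hence reflexive and `2`-AUSable, but which does not
satisfy the `4/3`-interlaced concentration inequality. So the answer to Q2 is negative.

The dual of `X` is the space of all adapted arrays `S α t` (with `S α t = 0` for `t ≤ α`), regarded as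
paths `t ↦ S · t` in `ℓ²`, for which the sums of the fourth powers of
* the `ℓ²` norms of increments of the path over intervals `b`,
* the numbers `n ^ (-1/4) ∑_{l < n} |increment of one row over the l-th of n disjoint subintervals of b|`,
over disjoint intervals `b` are bounded. The fourth powers give that `X` is `4/3`-AUS; the limits of the
paths give that `X** / X` is `ℓ²`. The rows of `X` are smoother than the quotient, and this allows
oscillating sums of `k` rows and `k` times with the norm `k ^ (5/6)`, larger than `k ^ (3/4)`.

The construction is a variation of the one in the library (Q1, the critical case `p = q = 2`, in which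
only a logarithm is gained).
-/

set_option autoImplicit false

namespace Pool.Agent.Results.MP_a21e0e_an.SmootherQuotient

open Pool.Agent.H220.IC

/-- **Negative answer to Q2.** There is a Banach space `X` which is `4/3`-AUS and complemented in `X**`,
such that `X** / X` is reflexive and `2`-AUSable, but `X` does not satisfy the `4/3`-interlaced
concentration inequality. -/
theorem result :
    ∃ (X : Type) (_ : NormedAddCommGroup X) (_ : NormedSpace ℝ X) (_ : CompleteSpace X),
      IsAUS (4 / 3) X ∧ (canon X).ClosedComplemented ∧ IsReflexiveSpace (BidualQuotient X) ∧
        IsAUSable 2 (BidualQuotient X) ∧ ¬ InterlacedConcentration (4 / 3) X :=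
  ⟨XT, inferInstance, inferInstance, inferInstance, aus_XT, complemented, quot_reflexive,
    quot_ausable, Pool.Agent.H787.IC.s_conc (Pool.Agent.H363.IC.s_lip Pool.Agent.H903.IC.s_row)
      Pool.Agent.H296.IC.s_cert⟩

end Pool.Agent.Results.MP_a21e0e_an.SmootherQuotient
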